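import Mathlib
import Pool.Agent.H.MP_095559_gt.B

set_option autoImplicit false

namespace Pool.Agent.Results.MP_095559_gt.No

open Topology Set

/-- Euclidean space. -/
abbrev E (N : ℕ) : Type := EuclideanSpace ℝ (Fin N)

/-- `M` is a smooth embedded `n`-dimensional submanifold without boundary of `ℝ^(n+k)`: near each
of its points it is the zero set of a smooth map to `ℝ^k` with surjective differential there. -/
def IsSubmanifold (n k : ℕ) (M : Set (E (n + k))) : Prop :=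
  ∀ x ∈ M, ∃ (φ : E (n + k) → E k) (U : Set (E (n + k))), IsOpen U ∧ x ∈ U ∧
    ContDiffOn ℝ (⊤ : ℕ∞) φ U ∧ Function.Surjective (fderiv ℝ φ x) ∧ ∀ y ∈ U, y ∈ M ↔ φ y = 0

/-- `z` is orthogonal to the tangent space of `M` at `x` (velocities at `x` of curves in `M`). -/
def IsNormal {N : ℕ} (M : Set (E N)) (x z : E N) : Prop :=
  ∀ (c : ℝ → E N) (v : E N), c 0 = x → (∀ᶠ t in 𝓝 (0 : ℝ), c t ∈ M) → HasDerivAt c v 0 →
    inner ℝ z v = 0

/-- `γ` on `[0, l]` is a unit speed geodesic segment of `M` for the induced metric, with velocity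
`d`: the acceleration is normal to `M`. -/
def IsGeodesic {N : ℕ} (M : Set (E N)) (γ d : ℝ → E N) (l : ℝ) : Prop :=
  0 < l ∧ ∃ w : ℝ → E N, ∀ s ∈ Icc 0 l, γ s ∈ M ∧ HasDerivWithinAt γ (d s) (Icc 0 l) s ∧
    HasDerivWithinAt d (w s) (Icc 0 l) s ∧ ‖d s‖ = 1 ∧ IsNormal M (γ s) (w s)

/-- A closed geodesic net on `M` modelled on the theta graph. -/
structure IsThetaNet {N : ℕ} (M : Set (E N)) (p q : E N) (γ d : Fin 3 → ℝ → E N)
    (l : Fin 3 → ℝ) : Prop where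
  ne : p ≠ q
  geod : ∀ i, IsGeodesic M (γ i) (d i) (l i)
  ends : ∀ i, γ i 0 = p ∧ γ i (l i) = q
  simple : ∀ i, InjOn (γ i) (Icc 0 (l i))
  meet : ∀ i j, i ≠ j → ∀ s ∈ Icc 0 (l i), ∀ t ∈ Icc 0 (l j), γ i s = γ j t →
    γ i s = p ∨ γ i s = q
  balp : ∑ i, d i 0 = 0
  balq : ∑ i, -d i (l i) = 0

open Pool.Agent.H.MP_095559_gt in
theorem result : ∃ (n k : ℕ) (M : Set (E (n + k))), 3 ≤ n ∧ IsSubmanifold n k M ∧
    IsCompact M ∧ IsConnected M ∧
    ¬ ∃ (p q : E (n + k)) (γ d : Fin 3 → ℝ → E (n + k)) (l : Fin 3 → ℝ),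
      IsThetaNet M p q γ d l := by
  refine ⟨3, 6, SO, le_rfl, fun x hx => ⟨phi, {y | 0 < (toM y).det},
    isOpen_lt continuous_const det_cont, hx.2, phi_smooth.contDiffOn, phi_surj hx,
    fun y hy => ⟨fun h => (phi_iff y).2 h.1, fun h => ⟨(phi_iff y).1 h, hy⟩⟩⟩,
    SO_compact, SO_conn, ?_⟩
  rintro ⟨p, q, γ, d, l, h⟩
  choose hl w hw using h.geod
  exact h.ne (no_theta p q γ d w l hl (fun i s hs => (hw i s hs).2.1)
    (fun i s hs => (hw i s hs).2.2.1) (fun i s hs => (hw i s hs).1)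
    (fun i s hs => (hw i s hs).2.2.2.2) (fun i => (hw i 0 ⟨le_rfl, (hl i).le⟩).2.2.2.1)
    (fun i => (h.ends i).1) (fun i => (h.ends i).2) h.balp)

end Pool.Agent.Results.MP_095559_gt.No
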